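import Pool.Agent.Q258.StarTree

/-!
# The star number is unbounded on trees

For every `c` there is a finite tree of radius at most `c + 1` which is not a star-`k`-PCG for any
`k ≤ c`. So the star number of forests is unbounded, and the known bound by the radius is sharp
for every radius.
-/

namespace Pool.Agent.Results.MP_90e7d5_co.UnboundedOnTrees

/-- `G` is a star-`k`-PCG: there are positive weights `w` of the vertices and `k` pairwise disjoint
closed intervals `[a i, b i]` (single points allowed) such that distinct vertices `u`, `v` are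
adjacent exactly when `w u + w v` lies in one of the intervals. -/
def IsStarPCG {V : Type} (k : ℕ) (G : SimpleGraph V) : Prop :=
  ∃ (w : V → ℝ) (a b : Fin k → ℝ), (∀ v, 0 < w v) ∧ (∀ i, a i ≤ b i) ∧
    (∀ i j, i ≠ j → Disjoint (Set.Icc (a i) (b i)) (Set.Icc (a j) (b j))) ∧
    ∀ u v, u ≠ v → (G.Adj u v ↔ w u + w v ∈ ⋃ i, Set.Icc (a i) (b i))

/-- For every `c` there is a finite tree `G` with a vertex `r` at distance at most `c + 1` from all
vertices such that `G` is not a star-`k`-PCG for any `k ≤ c`, that is, the star number of `G` is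
larger than `c`. -/
theorem result : ∀ c : ℕ, ∃ (V : Type) (_ : Finite V) (G : SimpleGraph V), G.IsTree ∧
    (∃ r, ∀ v, G.dist r v ≤ c + 1) ∧ ∀ k ≤ c, ¬ IsStarPCG k G := by
  intro c
  refine ⟨Pool.Agent.Q258.StarTree.V (2 * (c * c) + 1) (c + 1), inferInstance,
    Pool.Agent.Q258.StarTree.T (2 * (c * c) + 1) (c + 1), Pool.Agent.Q258.StarTree.isTree _ _,
    ⟨Pool.Agent.Q258.StarTree.root _ _, ?_⟩, ?_⟩
  · intro v
    obtain ⟨p, hp⟩ := Pool.Agent.Q258.StarTree.dist_le _ _ v.1 v.2
    exact (SimpleGraph.dist_le p).trans (hp.le.trans v.2)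
  · rintro k hk ⟨w, a, b, _, _, _, h⟩
    refine Pool.Agent.Q258.StarTree.not_rep w a b (fun u v huv => ?_) ?_ (by omega)
    · rw [h u v huv, Set.mem_iUnion]
      rfl
    · have : k * k ≤ c * c := Nat.mul_le_mul hk hk
      omega

end Pool.Agent.Results.MP_90e7d5_co.UnboundedOnTrees
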